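import Pool.Agent.W525.CB.Stm

/-!
# Project CB: the condition `h_* O_X = O_Z`
-/

open AlgebraicGeometry CategoryTheory Order

namespace Pool.Agent.W576.CB.PUSH

open Pool.Agent.H187R3 Pool.Agent.W525.CB

lemma gen_mem {X : Scheme.{0}} [IsIntegral X] {U : X.Opens} {x : X} (hx : x ∈ U) :
    genericPoint X ∈ U :=
  ((genericPoint_spec X).mem_open_set_iff U.isOpen).mpr (by simpa using ⟨x, hx⟩)

lemma algMap_germ {X : Scheme.{0}} [IsIntegral X] {U : X.Opens} {x : X} (hx : x ∈ U)
    (hη : genericPoint X ∈ U) (s : Γ(X, U)) :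
    algebraMap (X.presheaf.stalk x) X.functionField (X.presheaf.germ U x hx s) =
      X.presheaf.germ U (genericPoint X) hη s := by
  have : Nonempty U := ⟨⟨x, hx⟩⟩
  exact Scheme.algebraMap_germ_eq_germToFunctionField X hx s

lemma fmap_germ {X Z : Scheme.{0}} [IsIntegral X] [IsIntegral Z] (h : X ⟶ Z) [IsDominant h]
    {U : Z.Opens} (hZ : genericPoint Z ∈ U) (hX : genericPoint X ∈ h ⁻¹ᵁ U) (t : Γ(Z, U)) :
    functionFieldMap h (Z.presheaf.germ U (genericPoint Z) hZ t) =
      X.presheaf.germ (h ⁻¹ᵁ U) (genericPoint X) hX (h.app U t) := by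
  have h1 : Z.presheaf.germ U (genericPoint Z) hZ ≫
      Z.presheaf.stalkSpecializes (specializes_of_isDominant h) =
      Z.presheaf.germ U (h (genericPoint X)) hX :=
    TopCat.Presheaf.germ_stalkSpecializes _ _ _
  have h2 := Scheme.Hom.germ_stalkMap h U (genericPoint X) hX
  have h3 : Z.presheaf.germ U (genericPoint Z) hZ ≫
      (Z.presheaf.stalkSpecializes (specializes_of_isDominant h) ≫
        h.stalkMap (genericPoint X)) =
      h.app U ≫ X.presheaf.germ (h ⁻¹ᵁ U) (genericPoint X) hX := by
    rw [← Category.assoc, h1, h2]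
  have h4 := congrArg (fun f => f.hom t) h3
  exact h4

lemma ord_inv {Z : Scheme.{0}} [IsIntegral Z] [IsLocallyNoetherian Z] {φ : Z.functionField}
    (hφ : φ ≠ 0) (y : Z) : Scheme.ord φ⁻¹ y = -Scheme.ord φ y := by
  have h1 : Scheme.ord (1 * 1 : Z.functionField) y =
      Scheme.ord (1 : Z.functionField) y + Scheme.ord (1 : Z.functionField) y :=
    Scheme.ord_mul one_ne_zero one_ne_zero
  rw [mul_one] at h1
  have h2 : Scheme.ord (φ * φ⁻¹) y = Scheme.ord φ y + Scheme.ord φ⁻¹ y :=
    Scheme.ord_mul hφ (inv_ne_zero hφ)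
  rw [mul_inv_cancel₀ hφ] at h2
  omega

theorem main : S_SEC → S_HART → S_ORD → S_HOM → S_PUSH := by
  intro HS HH HO HM X Z _ _ _ h _ hN hsurj hφ U
  by_cases hZ : genericPoint Z ∈ U
  · have hX : genericPoint X ∈ h ⁻¹ᵁ U := by
      obtain ⟨x, hx⟩ := hsurj.surj (genericPoint Z)
      exact gen_mem (x := x) (by
        show h x ∈ U
        rw [hx]
        exact hZ)
    have hinj : Function.Injective (functionFieldMap h) := (functionFieldMap h).injective
    constructor
    · intro t t' htt
      have h1 := fmap_germ h hZ hX t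
      have h2 := fmap_germ h hZ hX t'
      have h3 : (h.app U) t = (h.app U) t' := htt
      rw [h3, ← h2] at h1
      exact germ_injective_of_isIntegral Z _ hZ (hinj h1)
    · intro s
      obtain ⟨φ, hs⟩ := hφ U hX s
      have key : ∀ z ∈ U, φ ∈ (algebraMap (Z.presheaf.stalk z) Z.functionField).range := by
        intro z hz
        by_cases h0 : φ = 0
        · exact ⟨0, by rw [map_zero, h0]⟩
        refine HH Z hN z φ h0 ?_
        intro y hy hyz
        have hyU : y ∈ U := hyz.mem_open U.isOpen hz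
        by_contra hneg
        obtain ⟨x, rfl⟩ := hsurj.surj y
        have h1 : φ⁻¹ ∈ (algebraMap (Z.presheaf.stalk (h x)) Z.functionField).range := by
          rw [← HO Z hN (h x) hy φ⁻¹ (inv_ne_zero h0), ord_inv h0]
          omega
        have hxU : x ∈ h ⁻¹ᵁ U := hyU
        have h2 := (HM X Z h X.functionField (RingHom.id _) (functionFieldMap h)
          (fun _ => rfl) x).2 (functionFieldMap h φ⁻¹)
        have h3 : functionFieldMap h φ⁻¹ ∈ locIn (functionFieldMap h) (h x) := by
          obtain ⟨r, hr⟩ := h1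
          exact ⟨r, by rw [← hr]; rfl⟩
        have h4 : (functionFieldMap h φ⁻¹)⁻¹ ∈ locIn (RingHom.id X.functionField) x := by
          refine ⟨X.presheaf.germ (h ⁻¹ᵁ U) x hxU s, ?_⟩
          rw [map_inv₀, inv_inv, hs]
          exact algMap_germ hxU hX s
        obtain ⟨r, hr⟩ := h2 h3 h4
        rw [map_inv₀, inv_inv] at hr
        have h5 : algebraMap (Z.presheaf.stalk (h x)) Z.functionField r = φ := hinj hr
        exact hneg ((HO Z hN (h x) hy φ h0).2 ⟨r, h5⟩)
      obtain ⟨hη, t, ht⟩ := HS Z Z.functionField (RingHom.id _) U hZ φ (by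
        intro z hz
        obtain ⟨r, hr⟩ := key z hz
        exact ⟨r, hr⟩)
      refine ⟨t, ?_⟩
      have h1 := fmap_germ h hZ hX t
      have h2 : Z.presheaf.germ U (genericPoint Z) hZ t = φ := ht
      rw [h2, hs] at h1
      exact (germ_injective_of_isIntegral X _ hX h1).symm
  · have hU : U = ⊥ := by
      ext z
      constructor
      · intro hz
        exact absurd (gen_mem hz) hZ
      · intro hz
        exact absurd hz (by simp)
    subst hU
    have h1 : Subsingleton Γ(Z, ⊥) := inferInstance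
    have h2 : Subsingleton Γ(X, h ⁻¹ᵁ ⊥) := by
      have : h ⁻¹ᵁ (⊥ : Z.Opens) = ⊥ := by
        ext z
        simp
      rw [this]
      infer_instance
    constructor
    · intro a b _
      exact Subsingleton.elim _ _
    · intro b
      exact ⟨0, Subsingleton.elim _ _⟩

end Pool.Agent.W576.CB.PUSH
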